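import Pool.Agent.Lib.MP_3e612f_nt.NF.G.NullN

/-! Local uniformity of the Moebius function for nilrotations with null frequency sets, ordinary averages. -/

set_option autoImplicit false

namespace Pool.Agent.Results.MP_3e612f_nt.NilNull

open Finset
open Pool.Agent.Lib.MP_3e612f_nt.NF (dot Fr Small LL MalZ)

/-- `G` a nilpotent topological group, `Γ` a subgroup with Mal'cev data `M` (`M.n : G → ℤ` a homomorphism, trivial if `G` is connected; `M.p 0 : G → ℝ^d` the horizontal map, `Γ` is mapped onto `ℤ^d`), `F` continuous on `G/Γ`, `V ≥ 0`.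
For every `ε > 0` there is `B` such that for every set `S ⊂ G` of rotations (`0 < |n(g)| ≤ V` for `g ∈ S`, or `n = 0` on `G`) whose frequency sets `m · p₀(S)`, `0 ≠ m ∈ ℤ^d`, `|m_i| ≤ B`, have a null closure modulo 1 without rational numbers,
the ordinary average of the supremum over the rotations in `S` and over all points of `G/Γ` is at most `ε`, uniformly for `H₀ ≤ H ≤ N`. -/
theorem result {G : Type} [Group G] [TopologicalSpace G] [IsTopologicalGroup G] {Γ : Subgroup G} {k : ℕ} (M : MalZ G Γ k) (hk : 1 ≤ k) (nil : LL G k = ⊥)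
    (F : G ⧸ Γ → ℂ) (hF : Continuous F) (V : ℕ) (ε : ℝ) (hε : 0 < ε) :
    ∃ B : ℕ, ∀ S : Set G, ((∀ x, M.n x = 0) ∨ ∀ g ∈ S, M.n g ≠ 0 ∧ |M.n g| ≤ V) →
      (∀ m : M.I 0 → ℤ, m ≠ 0 → (∀ i, |m i| ≤ B) → Small 0 (Fr {x | ∃ g ∈ S, x = dot m (M.p 0 g)})) →
        ∃ H₀ : ℕ, ∀ H N : ℕ, H₀ ≤ H → H ≤ N → ∀ g : ℕ → G, (∀ n, g n ∈ S) → ∀ x : ℕ → G ⧸ Γ,
          ∑ n ∈ Icc 1 N, ‖∑ h ∈ Icc 1 H, ((ArithmeticFunction.moebius (n + h) : ℤ) : ℂ) * F (g n ^ h • x n)‖ ≤ ε * H * N := by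
  have hF' : Continuous fun x : G => F (x : G ⧸ Γ) := hF.comp QuotientGroup.continuous_mk
  have hΓ' : ∀ x : G, ∀ γ ∈ Γ, F ((x * γ : G) : G ⧸ Γ) = F (x : G ⧸ Γ) := by
    intro x γ hγ
    rw [QuotientGroup.mk_mul_of_mem x hγ]
  obtain ⟨B, hB⟩ := M.part_full hk nil (fun x => F (x : G ⧸ Γ)) hF' hΓ' V ε hε
  have hlift : ∀ x : ℕ → G ⧸ Γ, ∃ a : ℕ → G, ∀ n, x n = (a n : G ⧸ Γ) := by
    intro x
    choose a ha using fun n => QuotientGroup.mk_surjective (x n)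
    exact ⟨a, fun n => (ha n).symm⟩
  refine ⟨B, fun S h0 h => ?_⟩
  obtain ⟨H₀, h1⟩ := hB S h0 h
  refine ⟨H₀, fun H N hH hN g hg x => ?_⟩
  obtain ⟨a, ha⟩ := hlift x
  refine le_trans (le_of_eq ?_) (h1 H N hH hN g a hg)
  refine sum_congr rfl fun n _ => ?_
  congr 1
  refine sum_congr rfl fun h _ => ?_
  rw [ha n]
  rfl

end Pool.Agent.Results.MP_3e612f_nt.NilNull
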