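import Pool.Agent.Lib.MP_3e612f_nt.NF.R.PartPU
import Pool.Agent.Lib.MP_3e612f_nt.NF.P.NullSl

/-! Local uniformity of the Moebius function for polynomial phases with coefficients in a closed null set, ordinary averages. -/

set_option autoImplicit false

namespace Pool.Agent.Results.MP_3e612f_nt.PolyNull

open Finset

/-- Let `K ⊂ ℝ^t` be closed and `ℤ^t`-periodic, and suppose that for `1 ≤ s ≤ t` all slices of `K` over rational values of the coordinates `s+1, …, t` are null.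
Then `μ` does not correlate with the phases `e(a₁ h + … + a_t h^t)`, `a ∈ K`, on almost all short intervals, with the supremum over `K` inside the (ordinary) average, uniformly for `D ≤ H ≤ N/D`. -/
theorem result (t : ℕ) (ht : 1 ≤ t) (K : Set (Fin t → ℝ)) (hK : IsClosed K)
    (hper : ∀ x ∈ K, ∀ z : Fin t → ℤ, (fun i => x i + z i) ∈ K)
    (hnull : ∀ s : ℕ, 1 ≤ s → s ≤ t → ∀ r : Fin t → ℚ,
      MeasureTheory.volume {x : Fin s → ℝ | (fun i : Fin t => if h : (i : ℕ) < s then x ⟨i, h⟩ else (r i : ℝ)) ∈ K} = 0)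
    (ε : ℝ) (hε : 0 < ε) :
    ∃ D : ℕ, ∀ H N : ℕ, D ≤ H → D * H ≤ N → ∀ a : ℕ → Fin t → ℝ, (∀ n, a n ∈ K) →
      ∑ n ∈ Icc 1 N, ‖∑ h ∈ Icc 1 H, ((ArithmeticFunction.moebius (n + h) : ℤ) : ℂ) *
        Complex.exp (2 * Real.pi * Complex.I * ∑ i : Fin t, (a n i : ℂ) * (h : ℂ) ^ ((i : ℕ) + 1))‖ ≤ ε * H * N := by
  obtain ⟨D, h1⟩ := Pool.Agent.Lib.MP_3e612f_nt.NF.part_pu t ht K hK hper
    (Pool.Agent.Lib.MP_3e612f_nt.NF.nullP_of_slices t K hnull) ε hε
  refine ⟨D, fun H N hH hN a ha => ?_⟩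
  refine le_trans (le_of_eq ?_) (h1 H N hH hN a ha)
  refine sum_congr rfl fun n _ => ?_
  congr 1
  refine sum_congr rfl fun h _ => ?_
  have h2 : Pool.Agent.Lib.MP_3e612f_nt.MR.ex (Pool.Agent.Lib.MP_3e612f_nt.NF.pol (a n) (h : ℝ)) =
      Complex.exp (2 * Real.pi * Complex.I * ∑ i : Fin t, (a n i : ℂ) * (h : ℂ) ^ ((i : ℕ) + 1)) := by
    unfold Pool.Agent.Lib.MP_3e612f_nt.MR.ex Pool.Agent.Lib.MP_3e612f_nt.NF.pol
    congr 1
    push_cast
    ring
  rw [← h2]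
  congr 1

end Pool.Agent.Results.MP_3e612f_nt.PolyNull
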