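import Pool.Agent.Lib.MP_3e612f_nt.RD.Res
import Pool.Agent.Lib.MP_3e612f_nt.RD.L.UsdL

/-!
Moebius disjointness on almost all short intervals, along every orbit and uniformly in the points, for the
universal system of the real digit polynomials of degree `d`.
-/

set_option autoImplicit false

namespace Pool.Agent.Results.MP_3e612f_nt.RealDigits

/-- Let `q ≥ 2`, `k, d ≥ 1` and let `X` be the closure, in the space of the sequences in the infinite torus
`(ℝ / ℤ)^ℕ`, of the set of all sequences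
`n ↦ ∑_{j_1, …, j_d < L} F_j (⌊(n + s) / q^(j_1)⌋ mod q^k, …, ⌊(n + s) / q^(j_d)⌋ mod q^k)`
with arbitrary `L`, `s` and arbitrary functions `F_j` with values in `(ℝ / ℤ)^ℕ` (sums of functions of `d`
blocks of `k` digits in base `q`). Then `X` is invariant under the shift `T`, the system `(X, T)` has zero
topological entropy, `X` contains all sequences `n ↦ (P_i(n) mod 1)_i`, `P_i` real polynomials of degree
`≤ d`, and for every continuous `f` and `ε > 0` there are `H₀`, `N₀` such that for all `N ≥ N₀`, all `H` with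
`H₀ ≤ H ≤ N` and ALL `x ∈ X`: `∑_{n < N} |∑_{h < H} f(T^(n + h) x) μ(n + h)| ≤ ε H N`. -/
theorem result (q k d : ℕ) (hq : 2 ≤ q) (hk : 1 ≤ k) (hd : 1 ≤ d) :
    let X : Set (ℕ → ℕ → UnitAddCircle) := closure {x | ∃ (L s : ℕ)
      (F : (Fin d → Fin L) → (Fin d → ℕ) → ℕ → UnitAddCircle),
      ∀ n, x n = ∑ j : Fin d → Fin L, F j fun a => (n + s) / q ^ (j a : ℕ) % q ^ k}
    let T : (ℕ → ℕ → UnitAddCircle) → ℕ → ℕ → UnitAddCircle := fun x n => x (n + 1)
    Set.MapsTo T X X ∧ Dynamics.coverEntropy T X = 0 ∧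
    (∀ P : ℕ → Polynomial ℝ, (∀ i, (P i).natDegree ≤ d) →
      (fun (n i : ℕ) => (((P i).eval (n : ℝ) : ℝ) : UnitAddCircle)) ∈ X) ∧
    ∀ f : (ℕ → ℕ → UnitAddCircle) → ℂ, Continuous f → ∀ ε : ℝ, 0 < ε → ∃ H₀ N₀ : ℕ, ∀ N ≥ N₀,
      ∀ H, H₀ ≤ H → H ≤ N → ∀ x ∈ X, ∑ n ∈ Finset.range N, ‖∑ h ∈ Finset.range H,
        f (T^[n + h] x) * ((ArithmeticFunction.moebius (n + h) : ℤ) : ℂ)‖ ≤ ε * H * N := by
  obtain ⟨D, rfl⟩ : ∃ D, k = D + 1 := ⟨k - 1, by omega⟩
  intro X T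
  have hX : X = closure (Pool.Agent.Lib.MP_3e612f_nt.RD.GX q D d) := by
    rw [Pool.Agent.Lib.MP_3e612f_nt.RD.gx_eq]
  refine ⟨?_, ?_, fun P hP => ?_, fun f hf ε hε => ?_⟩
  · rw [hX]
    exact Pool.Agent.Lib.MP_3e612f_nt.RD.gx_shift q D d
  · rw [hX]
    exact Pool.Agent.Lib.MP_3e612f_nt.RD.gx_entropy hq D d
  · rw [hX]
    exact Pool.Agent.Lib.MP_3e612f_nt.RD.gx_poly hq D hd P hP
  · obtain ⟨H₀, N₀, h⟩ := Pool.Agent.Lib.MP_3e612f_nt.RD.gx_short hq hd D f hf hε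
    refine ⟨H₀, N₀, fun N hN H hH hHN x hx => ?_⟩
    rw [hX] at hx
    refine le_trans (le_of_eq ?_) (h N hN H hH hHN x hx)
    refine Finset.sum_congr rfl fun n _ => ?_
    congr 1
    refine Finset.sum_congr rfl fun i _ => ?_
    have e : T^[n + i] x = fun j => x (j + (n + i)) :=
      Pool.Agent.Lib.MP_3e612f_nt.RD.sh_iter (n + i) x
    rw [e, mul_comm]
    rfl

end Pool.Agent.Results.MP_3e612f_nt.RealDigits
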