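import Pool.Agent.Lib.MP_3e612f_nt.ZE.I.Nil
import Pool.Agent.Lib.MP_3e612f_nt.ZE.H.Cover
import Pool.Agent.Lib.MP_3e612f_nt.ZE.H.Q1
import Pool.Agent.Lib.MP_3e612f_nt.ZE.W.Pt
import Pool.Agent.Lib.MP_3e612f_nt.ZE.G.Stmt

/-! The logarithmically averaged Sarnak conjecture, also on almost all short intervals and uniformly in the points, for systems of zero entropy almost all of whose ergodic measures are weakly mixing or modelled, in all box norms, by nilsystems with all frequencies in a null set. -/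

set_option autoImplicit false

namespace Pool.Agent.Results.MP_3e612f_nt.ZeroEntropyNull

open MeasureTheory Filter Topology ProbabilityTheory
open Pool.Agent.Lib.MP_3e612f_nt.NF (dot LL MalZ NilMfd)
open Pool.Agent.Lib.MP_3e612f_nt
open Pool.Agent.Lib.MP_3e612f_nt.ZE hiding LLim ZEnt

/-- The local box norm (to the power `2 ^ (K + 1)`) of order `K + 1` at the scale `H` of the sequence `w` at the place `j`: `|(1/H) ∑_{a < H} w(j + a)|²` for `K = 0`, and the average over `a, b < H` of the box norms of order `K` of `n ↦ w(n + a) conj(w(n + b))` for order `K + 1`. -/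
noncomputable def box (H : ℕ) : ℕ → (ℕ → ℂ) → ℕ → ℝ
  | 0, w, j => ‖(∑ a ∈ Finset.range H, w (j + a)) / (H : ℂ)‖ ^ 2
  | K + 1, w, j => (∑ a ∈ Finset.range H, ∑ b ∈ Finset.range H, box H K (fun n => w (n + a) * (starRingEnd ℂ) (w (n + b))) j) / (H : ℝ) ^ 2

/-- There are a joining `lam` of `ν` with an invariant measure of `(X, T)` (an invariant Borel probability measure on `X × Y` with second marginal `ν`), a continuous function `f` on `X` with `|f| ≤ 1` and a scale `H` such that the average (with respect to `lam`) of the box norm of order `K + 1` at the scale `H` of `n ↦ g(S^n y) - f(T^n x)` is at most `ε`. -/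
def NearBox {X Y : Type} [TopologicalSpace X] [MeasurableSpace Y] (T : X → X) (S : Y → Y) (ν : Measure Y) (g : Y → ℂ) (K : ℕ) (ε : ℝ) : Prop :=
  ∃ (_ : MeasurableSpace X) (_ : BorelSpace X) (f : X → ℂ) (H : ℕ) (lam : Measure (X × Y)), Continuous f ∧ (∀ x, ‖f x‖ ≤ 1) ∧ 1 ≤ H ∧ IsProbabilityMeasure lam ∧
    MeasurePreserving (Prod.map T S) lam lam ∧ lam.map Prod.snd = ν ∧ ∫ p, box H K (fun n => g (S^[n] p.2) - f (T^[n] p.1)) 0 ∂lam ≤ ε

/-- All frequencies `m · p₀(u_q … u_0)`, `0 ≠ m ∈ ℤ^d`, of the return rotation `u_q … u_0` are irrational and in `E`, and it is not in `{n = 0}` (unless `n = 0` on `G`). -/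
def FreqIn {G : Type} [Group G] [TopologicalSpace G] {Γ : Subgroup G} {k : ℕ} (M : MalZ G Γ k) {q : ℕ} (u : Fin (q + 1) → G) (E : Set ℝ) : Prop :=
  ((∀ x, M.n x = 0) ∨ ∑ j, M.n (u j) ≠ 0) ∧ ∀ m : M.I 0 → ℤ, m ≠ 0 → ∑ j, dot m (M.p 0 (u j)) ∈ E ∧ ∀ r : ℚ, ∑ j, dot m (M.p 0 (u j)) ≠ r

/-- The measure `ν` is modelled, for `g`, in all box norms by nilsystems on the nilmanifolds `G/Γ` of the list `𝒩` with all frequencies in `E`: for every order and every `ε > 0` it is `ε`-near (in the sense of `NearBox`) to a system `T(j, x) = (j + 1, u_j x)` on `{0, …, q} × G/Γ` (`j + 1` modulo `q + 1`) with `FreqIn M u E`.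
(By Host and Kra 2005 this holds, for a suitable list `𝒩`, for all ergodic measures whose irrational eigenvalues are in `{exp(2πi t) : t ∈ E₀}`, where `E` is the set of the numbers `q t + r`, `t ∈ E₀`, `q, r` integral; it is null if `E₀` is null.) -/
def ModelledBox {Y : Type} [MeasurableSpace Y] (S : Y → Y) (g : Y → ℂ) (𝒩 : ℕ → NilMfd) (E : Set ℝ) (ν : Measure Y) : Prop :=
  ∀ (K : ℕ) (ε : ℝ), 0 < ε → ∃ (i q : ℕ) (u : Fin (q + 1) → (𝒩 i).G), FreqIn (𝒩 i).M u E ∧
    NearBox (fun z : Fin (q + 1) × ((𝒩 i).G ⧸ (𝒩 i).Γ) => ((z.1 + 1, u z.1 • z.2) : Fin (q + 1) × ((𝒩 i).G ⧸ (𝒩 i).Γ))) S ν g K ε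

/-- The system `(Y, S, ν)` is weakly mixing: its product with itself is ergodic. -/
def WeaklyMixing {Y : Type} [MeasurableSpace Y] (S : Y → Y) (ν : Measure Y) : Prop := Ergodic (Prod.map S S) (ν.prod ν)

/-- `ν` is a logarithmic limit measure of the set `F` of sequences in `Y`: the weak-* limit of averages of the point masses at `S^n y_x`, `n < h`, `x < N` with the weight `1/(x+1)`, for sequences `y ∈ F`, with `h → ∞`, `log N / h → ∞`. -/
def LogLimit {Y : Type} [TopologicalSpace Y] [MeasurableSpace Y] (S : Y → Y) (F : Set (ℕ → Y)) (ν : Measure Y) : Prop :=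
  ∃ (N h : ℕ → ℕ) (y : ℕ → ℕ → Y), (∀ k, y k ∈ F) ∧ Tendsto h atTop atTop ∧
    Tendsto (fun k => Real.log (N k) / (h k : ℝ)) atTop atTop ∧ ∀ φ : C(Y, ℝ),
      Tendsto (fun k => (∑ x ∈ Finset.range (N k), (∑ n ∈ Finset.range (h k), φ (S^[n] (y k x))) / ((x : ℝ) + 1)) /
        (Real.log (N k) * (h k : ℝ))) atTop (𝓝 (∫ z, φ z ∂ν))

/-- Zero entropy of `ν` with respect to `g`, in Katok's form: for all large `J` there are at most `exp (δ J)` points such that, outside of a set of measure at most `ε`, each word `(g (S^n y))_{n < J}` is `ε`-close in mean to the word of one of these points. -/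
def ZeroEntropy {Y : Type} [MeasurableSpace Y] (S : Y → Y) (g : Y → ℂ) (ν : Measure Y) : Prop :=
  ∀ ε : ℝ, 0 < ε → ∀ δ : ℝ, 0 < δ → ∃ J₀ : ℕ, ∀ J ≥ J₀, ∃ C : Finset Y, (C.card : ℝ) ≤ Real.exp (δ * J) ∧
    ν {y | ∀ c ∈ C, ε * J ≤ ∑ n ∈ Finset.range J, ‖g (S^[n] y) - g (S^[n] c)‖} ≤ ENNReal.ofReal ε

theorem box_eq (H K : ℕ) (w : ℕ → ℂ) (j : ℕ) : box H K w j = psi H K w j := by
  induction K generalizing w with
  | zero => rfl
  | succ K ih =>
    unfold box psi
    simp only [ih]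

/-- Let `Y` be a compact metric space, `S : Y → Y` and `g : Y → ℂ` continuous, `|g| ≤ 1`, and `F` a set of sequences in `Y`. Suppose that `S` has topological entropy zero, or that all logarithmic limit measures of `F` have zero entropy. Suppose that for every logarithmic limit measure `ν` of `F` there are a list of nilmanifolds and a Lebesgue null set `E` such that
almost every ergodic component of `ν` (conditional measure with respect to the σ-algebra of the invariant sets) is weakly mixing or modelled, in all box norms, by nilsystems on these nilmanifolds with all frequencies in `E`. Then for every `ε > 0`, for `h ≥ h₀(ε)` and `N ≥ N₀(ε, h)`, for all `y ∈ F`: `∑_{x < N} |∑_{n < h} μ(x + n) g(S^n y_x)| / (x + 1) ≤ ε h log N`, and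
`(1 / log N) ∑_{1 ≤ n ≤ N} g(S^n y₀) μ(n) / n → 0` for every `y₀` with `(S^n y₀)_n ∈ F`. -/
theorem result (Y : Type) [MetricSpace Y] [CompactSpace Y] [MeasurableSpace Y] [BorelSpace Y]
    (S : Y → Y) (hS : Continuous S) (g : Y → ℂ) (hg : Continuous g) (hg1 : ∀ y, ‖g y‖ ≤ 1) (F : Set (ℕ → Y))
    (hE : Dynamics.coverEntropy S Set.univ = 0 ∨ ∀ (ν : Measure Y) (_ : IsProbabilityMeasure ν), LogLimit S F ν → ZeroEntropy S g ν)
    (hF : ∀ (ν : Measure Y) (_ : IsProbabilityMeasure ν), LogLimit S F ν → ∃ (𝒩 : ℕ → NilMfd) (E : Set ℝ), volume E = 0 ∧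
      ∀ᵐ y ∂ν, Ergodic S (condExpKernel ν (MeasurableSpace.invariants S) y) →
        WeaklyMixing S (condExpKernel ν (MeasurableSpace.invariants S) y) ∨ ModelledBox S g 𝒩 E (condExpKernel ν (MeasurableSpace.invariants S) y)) :
    (∀ ε : ℝ, 0 < ε → ∃ h₀ : ℕ, ∀ h ≥ h₀, ∃ N₀ : ℕ, ∀ N ≥ N₀, ∀ y ∈ F,
      ∑ x ∈ Finset.range N, ‖∑ n ∈ Finset.range h, ((ArithmeticFunction.moebius (x + n) : ℤ) : ℂ) * g (S^[n] (y x))‖ / ((x : ℝ) + 1) ≤ ε * h * Real.log N) ∧
    ∀ y₀ : Y, (fun n => S^[n] y₀) ∈ F → Tendsto (fun N : ℕ => (1 / (Real.log (N : ℝ) : ℂ)) *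
      ∑ n ∈ Finset.Icc 1 N, g (S^[n] y₀) * ((ArithmeticFunction.moebius n : ℤ) : ℂ) / (n : ℂ)) atTop (𝓝 0) := by
  have hg2 : ∀ y, ‖(1 / 2 : ℂ) * g y‖ ≤ 1 / 2 := by
    intro y
    rw [norm_mul]
    have h1 : ‖(1 / 2 : ℂ)‖ = 1 / 2 := by simp
    rw [h1]
    have := hg1 y
    linarith
  have hmain : ∀ ε : ℝ, 0 < ε → ∃ h₀ : ℕ, ∀ h ≥ h₀, ∃ N₀ : ℕ, ∀ N ≥ N₀, ∀ y ∈ F,
      ∑ x ∈ Finset.range N, ‖∑ n ∈ Finset.range h, ((ArithmeticFunction.moebius (x + n) : ℤ) : ℂ) * g (S^[n] (y x))‖ / ((x : ℝ) + 1) ≤ ε * h * Real.log N := by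
    intro ε hε
    obtain ⟨h₀, H⟩ := nil_ze stmtL S hS (fun y => (1 / 2 : ℂ) * g y) (continuous_const.mul hg) hg2 F (fun ν hν hD => by
      refine ⟨?_, ?_⟩
      · rcases hE with hE | hE
        · exact zent_of_cover S hS hE _ (continuous_const.mul hg) ν
        · intro e he δ hδ
          obtain ⟨J₀, hJ⟩ := hE ν hν hD e he δ hδ
          refine ⟨J₀, fun J hJ0 => ?_⟩
          obtain ⟨C, hC1, hC2⟩ := hJ J hJ0
          refine ⟨C, hC1, (measure_mono fun y hy c hc => ?_).trans hC2⟩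
          refine (hy c hc).trans (Finset.sum_le_sum fun n _ => ?_)
          rw [← mul_sub, norm_mul]
          have h1 : ‖(1 / 2 : ℂ)‖ = 1 / 2 := by simp
          rw [h1]
          have := norm_nonneg (g (S^[n] y) - g (S^[n] c))
          linarith
      · obtain ⟨𝒩, E, hE0, hae⟩ := hF ν hν hD
        refine ⟨fun i => Nat.casesOn i pt 𝒩, E, hE0, ?_⟩
        filter_upwards [hae] with y hy herg
        rcases hy herg with hwm | hy
        · exact nilU_wm S hS _ (continuous_const.mul hg) hg2 _ herg.toMeasurePreserving hwm _ rfl E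
        intro K e he
        obtain ⟨i, q, u, hu, m, hb, f, H, lam, hf, hf1, hH, h1, h2, h3, h4⟩ := hy K e he
        refine ⟨i + 1, q, u, hu, m, hb, fun x => (1 / 2 : ℂ) * f x, H, lam, continuous_const.mul hf, ?_, hH, h1, h2, h3, ?_⟩
        · intro x
          rw [norm_mul]
          have h5 : ‖(1 / 2 : ℂ)‖ = 1 / 2 := by simp
          rw [h5]
          have := hf1 x
          linarith
        · have h5 : ∀ p, Ps ((𝒩 i).sys u) S (fun x => (1 / 2 : ℂ) * f x) (fun y => (1 / 2 : ℂ) * g y) H K p =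
              (1 / 2 : ℝ) ^ (2 ^ (K + 1)) * box H K (fun n => g (S^[n] p.2) - f (((𝒩 i).sys u)^[n] p.1)) 0 := by
            intro p
            rw [box_eq]
            have h6 := psi_smul H K (1 / 2 : ℂ) (fun n => g (S^[n] p.2) - f (((𝒩 i).sys u)^[n] p.1)) 0
            have h7 : ‖(1 / 2 : ℂ)‖ = 1 / 2 := by simp
            rw [h7] at h6
            rw [← h6]
            unfold Ps
            congr 1
            funext n
            unfold wd
            ring
          simp only [h5]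
          rw [integral_const_mul]
          have h6 : 0 ≤ ∫ p, box H K (fun n => g (S^[n] p.2) - f (((𝒩 i).sys u)^[n] p.1)) 0 ∂lam :=
            integral_nonneg fun p => by
              simp only [box_eq]
              exact psi_nonneg _ _ _ _
          have h7 : (1 / 2 : ℝ) ^ (2 ^ (K + 1)) ≤ 1 := pow_le_one₀ (by norm_num) (by norm_num)
          have h8 := mul_le_mul_of_nonneg_right h7 h6
          rw [one_mul] at h8
          exact h8.trans h4) (ε / 2) (by positivity)
    refine ⟨h₀, fun h hh => ?_⟩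
    obtain ⟨N₀, H⟩ := H h hh
    refine ⟨N₀, fun N hN y hy => ?_⟩
    have h1 := H N hN y hy
    have h2 : ∀ x, ‖∑ n ∈ Finset.range h, PI.mc (x + n) * ((1 / 2 : ℂ) * g (S^[n] (y x)))‖ / ((x : ℝ) + 1) =
        (1 / 2) * (‖∑ n ∈ Finset.range h, ((ArithmeticFunction.moebius (x + n) : ℤ) : ℂ) * g (S^[n] (y x))‖ / ((x : ℝ) + 1)) := by
      intro x
      have h3 : ∑ n ∈ Finset.range h, PI.mc (x + n) * ((1 / 2 : ℂ) * g (S^[n] (y x))) = (1 / 2 : ℂ) * ∑ n ∈ Finset.range h, ((ArithmeticFunction.moebius (x + n) : ℤ) : ℂ) * g (S^[n] (y x)) := by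
        rw [Finset.mul_sum]
        refine Finset.sum_congr rfl fun n _ => ?_
        unfold PI.mc
        ring
      rw [h3, norm_mul]
      have h4 : ‖(1 / 2 : ℂ)‖ = 1 / 2 := by simp
      rw [h4]
      ring
    rw [Finset.sum_congr rfl fun x _ => h2 (x : ℕ), ← Finset.mul_sum] at h1
    linarith
  refine ⟨hmain, fun y₀ hy₀ => ?_⟩
  have h1 := q1_of_windows (fun n => ((ArithmeticFunction.moebius n : ℤ) : ℂ) * g (S^[n] y₀)) (fun n => by
    rw [norm_mul]
    have h2 : ‖((ArithmeticFunction.moebius n : ℤ) : ℂ)‖ ≤ 1 := LOM.mc_le n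
    exact mul_le_one₀ h2 (norm_nonneg _) (hg1 _)) (fun ε hε => by
    obtain ⟨h₀, H⟩ := hmain ε hε
    obtain ⟨N₀, H⟩ := H (max h₀ 1) (le_max_left _ _)
    refine ⟨max h₀ 1, le_max_right _ _, N₀, fun N hN => ?_⟩
    refine le_trans (le_of_eq (Finset.sum_congr rfl fun x _ => ?_)) (H N hN _ hy₀)
    congr 2
    refine Finset.sum_congr rfl fun n _ => ?_
    rw [Nat.add_comm x n, Function.iterate_add_apply])
  refine h1.congr fun N => ?_
  congr 1
  refine Finset.sum_congr rfl fun n _ => ?_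
  ring

end Pool.Agent.Results.MP_3e612f_nt.ZeroEntropyNull
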